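import Pool.Agent.Y384.BX.Upper

/-! # Product sets: the exact order of the dependence on the dimension -/

set_option autoImplicit false

namespace Pool.Agent.Results.MP_5333ad_co.ProductSets

open Finset Pool.Agent.Results.MP_5333ad_co.LinearInDimension Pool.Agent.Y384.BX.Upper

lemma near_mono {d : ℕ} {ε ε' : ℝ} (h : ε ≤ ε') {S : Finset (Fin d → ℤ)}
    (hS : NearOptimal d ε S) : NearOptimal d ε' S := by
  unfold NearOptimal at hS ⊢
  refine hS.trans ?_
  apply mul_le_mul_of_nonneg_left _ (by positivity)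
  linarith

lemma box_nonempty {d N : ℕ} (hN : 2 ≤ N) : (box (side d N)).Nonempty := by
  rw [← Finset.card_pos, card_box]
  apply Finset.prod_pos
  intro i _
  unfold side
  split_ifs <;> omega

/-- the lower bound for small `ε` -/
lemma lower_small {d : ℕ} (hd : 2 ≤ d) {ε : ℝ} (hε : 0 < ε) (hle : ε ≤ 2 / (d : ℝ) ^ 2) :
    ∃ s : Fin d → ℕ, (box s).Nonempty ∧ NearOptimal d ε (box s) ∧
      ∀ (b : Fin d → ℤ) (k : ℕ), 1 ≤ k →
        (d : ℝ) * √ε * ((box s).card : ℝ) ≤ 18 * ((symmDiff (box s) (cube b k)).card : ℝ) := by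
  have hd0 : (2 : ℝ) ≤ d := by exact_mod_cast hd
  set q : ℝ := √(2 / ε) with hq
  have hq0 : 0 ≤ q := Real.sqrt_nonneg _
  have hqq : q ^ 2 = 2 / ε := Real.sq_sqrt (by positivity)
  have hdq : (d : ℝ) ≤ q := by
    rw [hq]
    apply Real.le_sqrt_of_sq_le
    rw [le_div_iff₀ hε]
    rw [le_div_iff₀ (by positivity)] at hle
    linarith
  set N : ℕ := ⌈q⌉₊ with hN
  have hqN : q ≤ N := Nat.le_ceil q
  have hNq : (N : ℝ) < q + 1 := Nat.ceil_lt_add_one hq0
  have hdN : d ≤ N := by
    have : (d : ℝ) ≤ N := hdq.trans hqN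
    exact_mod_cast this
  have hN2 : 2 ≤ N := hd.trans hdN
  have hN0 : (0 : ℝ) < N := by
    have : 0 < N := by omega
    exact_mod_cast this
  obtain ⟨h1, h2⟩ := key d N hd hN2 hdN
  refine ⟨side d N, box_nonempty hN2, near_mono ?_ h1, ?_⟩
  · rw [div_le_iff₀ (by positivity)]
    have h3 : q ^ 2 ≤ (N : ℝ) ^ 2 := pow_le_pow_left₀ hq0 hqN 2
    rw [hqq, div_le_iff₀ hε] at h3
    linarith
  · intro b k hk
    have h3 := h2 b k hk
    have h4 : √ε ≤ 2 * √(2 / (N : ℝ) ^ 2) := by
      have h5 : √ε = √2 / q := by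
        rw [hq, Real.sqrt_div (by norm_num)]
        field_simp
      have h6 : √(2 / (N : ℝ) ^ 2) = √2 / N := by
        rw [Real.sqrt_div (by norm_num), Real.sqrt_sq (by positivity)]
      have hqpos : 0 < q := by linarith
      have h7 : (N : ℝ) ≤ 2 * q := by linarith
      rw [h5, h6, ← mul_div_assoc, div_le_div_iff₀ hqpos hN0]
      have h8 : 0 ≤ √(2 : ℝ) := Real.sqrt_nonneg 2
      nlinarith
    have hc : (0 : ℝ) ≤ (box (side d N)).card := by positivity
    have h9 : (d : ℝ) * √ε * ((box (side d N)).card : ℝ) ≤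
        d * (2 * √(2 / (N : ℝ) ^ 2)) * ((box (side d N)).card : ℝ) := by
      apply mul_le_mul_of_nonneg_right _ hc
      exact mul_le_mul_of_nonneg_left h4 (by positivity)
    linarith

/-- the lower bound -/
lemma lower {d : ℕ} (hd : 2 ≤ d) {ε : ℝ} (hε : 0 < ε) :
    ∃ s : Fin d → ℕ, (box s).Nonempty ∧ NearOptimal d ε (box s) ∧
      ∀ (b : Fin d → ℤ) (k : ℕ), 1 ≤ k →
        min 1 (d * √ε) * ((box s).card : ℝ) ≤ 18 * ((symmDiff (box s) (cube b k)).card : ℝ) := by
  have hd0 : (2 : ℝ) ≤ d := by exact_mod_cast hd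
  rcases le_total ε (2 / (d : ℝ) ^ 2) with hle | hle
  · obtain ⟨s, h1, h2, h3⟩ := lower_small hd hε hle
    refine ⟨s, h1, h2, fun b k hk => le_trans ?_ (h3 b k hk)⟩
    exact mul_le_mul_of_nonneg_right (min_le_right _ _) (by positivity)
  · obtain ⟨s, h1, h2, h3⟩ := lower_small hd (ε := 2 / (d : ℝ) ^ 2) (by positivity) le_rfl
    refine ⟨s, h1, near_mono hle h2, fun b k hk => le_trans ?_ (h3 b k hk)⟩
    apply mul_le_mul_of_nonneg_right _ (by positivity)
    refine (min_le_left _ _).trans ?_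
    have h6 : √(2 / (d : ℝ) ^ 2) = √2 / d := by
      rw [Real.sqrt_div (by norm_num), Real.sqrt_sq (by positivity)]
    rw [h6, mul_div_cancel₀ _ (by positivity)]
    rw [Real.one_le_sqrt]
    norm_num

/-- **Product sets.**  (1) A product `A₁ × ... × A_d` of nonempty finite sets of integers whose
edge boundary is within a factor `1 + ε` of the optimum differs from some cube in at most
`min (1, 12 d √ε) |S|` points, in every dimension and for every `ε > 0`.
(2) In every dimension `d ≥ 2` and for every `ε > 0` there is a box with boundary within the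
factor `1 + ε` that differs from every cube in at least `min (1, d √ε) / 18 |S|` points, so that
the linear dependence on the dimension in (1) is sharp for every `ε`.
(3) There is no absolute constant with which the bound `c' √(d ε) |S|` holds. -/
theorem result :
    (∀ (d : ℕ), 1 ≤ d → ∀ ε : ℝ, 0 < ε → ∀ A : Fin d → Finset ℤ, (∀ i, (A i).Nonempty) →
      NearOptimal d ε (Fintype.piFinset A) →
        ∃ (a : Fin d → ℤ) (k : ℕ), 1 ≤ k ∧
          ((symmDiff (Fintype.piFinset A) (cube a k)).card : ℝ) ≤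
            min 1 (12 * (d * √ε)) * ((Fintype.piFinset A).card : ℝ)) ∧
    (∀ (d : ℕ), 2 ≤ d → ∀ ε : ℝ, 0 < ε →
      ∃ s : Fin d → ℕ, (box s).Nonempty ∧ NearOptimal d ε (box s) ∧
        ∀ (a : Fin d → ℤ) (k : ℕ), 1 ≤ k →
          min 1 (d * √ε) / 18 * ((box s).card : ℝ) ≤
            ((symmDiff (box s) (cube a k)).card : ℝ)) ∧
    ¬ ∃ c' : ℝ, 0 < c' ∧ ∀ d : ℕ, 1 ≤ d → ∀ ε : ℝ, 0 < ε → ∀ S : Finset (Fin d → ℤ),
      S.Nonempty → NearOptimal d ε S →
        ∃ (a : Fin d → ℤ) (k : ℕ), 1 ≤ k ∧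
          ((symmDiff S (cube a k)).card : ℝ) ≤ c' * √(d * ε) * (S.card : ℝ) := by
  refine ⟨?_, ?_, LinearInDimension.result.2⟩
  · intro d hd ε hε A hA hno
    exact upper hd ε hε A hA hno
  · intro d hd ε hε
    obtain ⟨s, h1, h2, h3⟩ := lower hd hε
    refine ⟨s, h1, h2, fun a k hk => ?_⟩
    have := h3 a k hk
    linarith

end Pool.Agent.Results.MP_5333ad_co.ProductSets
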